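import Pool.Agent.Y696.CTE.Stm

/-!
# Project CTP: `y² + y = x³` over the pure cubic fields `k = ℚ(∛N)`, statements

`F = k(ω)` is a cubic extension of `K = ℚ(ω)`, see `Pool.Agent.Y696.CTE`.  `ED 1` is `y² + y = x³`.
-/

set_option autoImplicit false
set_option linter.unusedVariables false

open scoped Classical

namespace Pool.Agent.Y696.CTP

open NumberField IsDedekindDomain WeierstrassCurve WithZero
open Pool.Agent.Y692.QS (Ei w nr toC)
open Pool.Agent.Y696.CTK
open Pool.Agent.Y696.CTE
open Pool.Agent.TH841.NF.D (Sha)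

/-- CTP-CMP: the compositum with the field of the third roots of unity (for example
`K = CyclotomicField 3 ℚ`, `F = CyclotomicField 3 k`, and the algebra given by a ring homomorphism
`K →+* F`). -/
def S_CMP : Prop := ∀ (k : Type) [Field k] [NumberField k], Module.finrank ℚ k = 3 →
  (∀ x : k, x ^ 2 ≠ -3) ∧
  ∃ (K F : Type) (_ : Field K) (_ : Field F) (_ : NumberField K) (_ : NumberField F)
    (_ : Algebra K F) (_ : Algebra k F), IsCyclotomicExtension {3} ℚ K ∧
    Module.finrank K F = 3 ∧ Module.finrank k F = 2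

/-- CTP-SHP: the Tate-Shafarevich group over a subfield of index `2` (corestriction after
restriction is multiplication by `2`). -/
def S_SHP : Prop := ∀ (k F : Type) [Field k] [NumberField k] [Field F] [NumberField F]
  [Algebra k F], Module.finrank k F = 2 →
  (∀ (n : ℕ) (x : Sha (ED (1 : F))), 3 ^ n • x = 0 → 3 • x = 0) →
    ∀ (n : ℕ) (x : Sha (ED (1 : k))), 3 ^ n • x = 0 → 3 • x = 0

/-- CTP-NSQ: squarefree integers are squarefree in the Eisenstein integers. -/
def S_NSQ : Prop := ∀ N : ℕ, Squarefree N → ¬ 3 ∣ N → Squarefree (N : Ei)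

/-- CTP-CARD: the number of the points over the pure cubic field. -/
def S_CARD : Prop := ∀ (k : Type) [Field k] [NumberField k] (N : ℕ) (θ : k),
  Module.finrank ℚ k = 3 → θ ^ 3 = N → Squarefree N → 2 < N →
    Finite (ED (1 : k)).toAffine.Point → Nat.card (ED (1 : k)).toAffine.Point = 3

/-- CTP-CARDF: the number of the points over `F`. -/
def S_CARDF : Prop := ∀ (K F : Type) [Field K] [NumberField K] [Field F] [NumberField F]
  [Algebra K F] (j : Ei ≃+* 𝓞 K) (D : Ei) (θ : 𝓞 F), Cub j D θ → Squarefree D →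
  (3 : Ei) ∣ D - 1 → D ≠ -2 → Finite (ED (1 : F)).toAffine.Point →
    Nat.card (ED (1 : F)).toAffine.Point = 9

end Pool.Agent.Y696.CTP
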